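import Mathlib

/-!
Project DF (helper421): a pointwise bound by the integral of the mixed second derivative.
-/

set_option autoImplicit false
open MeasureTheory Filter Topology Complex Set
open scoped ContDiff ENNReal

namespace Pool.Agent.TH421.DF

noncomputable section

lemma cdv {f : ℂ → ℂ} (hf : ContDiff ℝ ∞ f) (v : ℂ) : ContDiff ℝ ∞ (fun z => fderiv ℝ f z v) :=
  (hf.fderiv_right (m := ∞) le_rfl).clm_apply contDiff_const

/-- restriction to an affine line -/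
lemma line {f : ℂ → ℂ} (hf : ContDiff ℝ ∞ f) (p v : ℂ) (t : ℝ) :
    HasDerivAt (fun s : ℝ => f (p + (s : ℂ) * v)) (fderiv ℝ f (p + (t : ℂ) * v) v) t := by
  have h1 : HasDerivAt (fun s : ℝ => p + (s : ℂ) * v) v t := by
    have h2 : HasDerivAt (fun s : ℝ => (s : ℂ)) 1 t := Complex.ofRealCLM.hasDerivAt
    simpa using (h2.mul_const v).const_add p
  have h3 : HasFDerivAt f (fderiv ℝ f (p + (t : ℂ) * v)) (p + (t : ℂ) * v) :=
    (hf.differentiable (by simp) _).hasFDerivAt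
  exact h3.comp_hasDerivAt t h1

lemma line_cs {f : ℂ → ℂ} (hc : HasCompactSupport f) (p v : ℂ) (hv : v ≠ 0) :
    HasCompactSupport (fun s : ℝ => f (p + (s : ℂ) * v)) := by
  obtain ⟨R, hR⟩ := hc.isBounded.subset_closedBall (0 : ℂ)
  refine HasCompactSupport.intro (isCompact_Icc (a := -((R + ‖p‖) / ‖v‖)) (b := (R + ‖p‖) / ‖v‖))
    fun s hs => ?_
  by_contra h
  have h1 : p + (s : ℂ) * v ∈ tsupport f := subset_tsupport _ h
  have h2 := hR h1
  rw [mem_closedBall_zero_iff] at h2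
  apply hs
  have hv' : 0 < ‖v‖ := norm_pos_iff.2 hv
  have h3 : |s| * ‖v‖ ≤ R + ‖p‖ := by
    have : ‖(s : ℂ) * v‖ ≤ ‖p + (s : ℂ) * v‖ + ‖p‖ := by
      have := norm_sub_le (p + (s : ℂ) * v) p
      rwa [add_sub_cancel_left] at this
    rw [norm_mul, Complex.norm_real, Real.norm_eq_abs] at this
    linarith
  have h4 : |s| ≤ (R + ‖p‖) / ‖v‖ := by rwa [le_div_iff₀ hv']
  exact abs_le.1 h4

lemma one_d {f : ℂ → ℂ} (hf : ContDiff ℝ ∞ f) (hc : HasCompactSupport f) (p v : ℂ) (hv : v ≠ 0)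
    (t : ℝ) : ‖f (p + (t : ℂ) * v)‖ₑ ≤ ∫⁻ s : ℝ, ‖fderiv ℝ f (p + (s : ℂ) * v) v‖ₑ := by
  have h1 : ContDiff ℝ 1 (fun s : ℝ => f (p + (s : ℂ) * v)) :=
    (hf.of_le (by simp)).comp (contDiff_const.add (Complex.ofRealCLM.contDiff.mul contDiff_const))
  have h2 := HasCompactSupport.enorm_le_lintegral_Ici_deriv h1 (line_cs hc p v hv) t
  refine h2.trans (le_trans (setLIntegral_le_lintegral _ _) (le_of_eq ?_))
  congr 1
  funext s
  rw [(line hf p v s).deriv]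

/-- pointwise bound by the integral of the mixed derivative -/
theorem sup_le {U : ℂ → ℂ} (hU : ContDiff ℝ ∞ U) (hc : HasCompactSupport U) (z : ℂ) :
    ‖U z‖ ≤ ∫ w, ‖fderiv ℝ (fun w' => fderiv ℝ U w' 1) w I‖ := by
  have cV : ContDiff ℝ ∞ (fun w => fderiv ℝ U w 1) := cdv hU 1
  have hVc : HasCompactSupport (fun w => fderiv ℝ U w 1) := hc.fderiv_apply ℝ 1
  have cW : ContDiff ℝ ∞ (fun w => fderiv ℝ (fun w' => fderiv ℝ U w' 1) w I) := cdv cV I
  have hWc : HasCompactSupport (fun w => fderiv ℝ (fun w' => fderiv ℝ U w' 1) w I) :=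
    hVc.fderiv_apply ℝ I
  have iW := cW.continuous.integrable_of_hasCompactSupport (μ := (volume : Measure ℂ)) hWc
  obtain ⟨F, hF⟩ : ∃ F : ℂ → ℝ≥0∞, F = fun w => ‖fderiv ℝ (fun w' => fderiv ℝ U w' 1) w I‖ₑ :=
    ⟨_, rfl⟩
  have mF : Measurable F := by
    rw [hF]; exact cW.continuous.enorm.measurable
  have e1 : ‖U z‖ₑ ≤ ∫⁻ x : ℝ, ‖fderiv ℝ U ((z.im : ℂ) * I + (x : ℂ) * 1) 1‖ₑ := by
    have h := one_d hU hc ((z.im : ℂ) * I) 1 one_ne_zero z.re
    have e : (z.im : ℂ) * I + (z.re : ℂ) * 1 = z := by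
      rw [mul_one, add_comm]; exact re_add_im z
    rwa [e] at h
  have e2 : ∀ x : ℝ, ‖fderiv ℝ U ((z.im : ℂ) * I + (x : ℂ) * 1) 1‖ₑ ≤
      ∫⁻ y : ℝ, F ((x : ℂ) + (y : ℂ) * I) := by
    intro x
    have h := one_d cV hVc (x : ℂ) I I_ne_zero z.im
    have e : (z.im : ℂ) * I + (x : ℂ) * 1 = (x : ℂ) + (z.im : ℂ) * I := by ring
    rw [e, hF]
    exact h
  have e3 : ∫⁻ x : ℝ, ∫⁻ y : ℝ, F ((x : ℂ) + (y : ℂ) * I) = ∫⁻ w, F w := by
    have h1 := Complex.volume_preserving_equiv_real_prod.symm.lintegral_comp mF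
    rw [← h1]
    have h2 := lintegral_prod (μ := (volume : Measure ℝ)) (ν := (volume : Measure ℝ))
      (fun p : ℝ × ℝ => F (measurableEquivRealProd.symm p))
      (mF.comp measurableEquivRealProd.symm.measurable).aemeasurable
    rw [Measure.volume_eq_prod]
    rw [h2]
    refine lintegral_congr fun x => lintegral_congr fun y => ?_
    congr 1
    apply Complex.ext <;> simp
  have e4 : ‖U z‖ₑ ≤ ∫⁻ w, F w := by
    refine e1.trans ?_
    rw [← e3]
    exact lintegral_mono e2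
  have e5 : ∫⁻ w, F w = ENNReal.ofReal (∫ w, ‖fderiv ℝ (fun w' => fderiv ℝ U w' 1) w I‖) := by
    rw [hF, ofReal_integral_norm_eq_lintegral_enorm iW]
  rw [e5] at e4
  rw [← ofReal_norm_eq_enorm] at e4
  exact (ENNReal.ofReal_le_ofReal_iff (integral_nonneg fun w => norm_nonneg _)).1 e4

end

end Pool.Agent.TH421.DF
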