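import Pool.Agent.TH294.RG.L2a
import Pool.Agent.TH421.DF.Sob

/-!
Project DF (helper421): sequences all of whose semiclassical derivatives are locally bounded
by a fixed power of `1/h`.
-/

set_option autoImplicit false
open MeasureTheory Filter Topology Complex
open scoped ContDiff ENNReal

namespace Pool.Agent.TH421.DF

open Pool.Agent.W745.RW Pool.Agent.TH294.RS Pool.Agent.TH294.RG

noncomputable section

variable {B : Set ℂ} {h : ℕ → ℝ}

/-- locally `O(h^(-m))`, smooth -/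
structure SP (B : Set ℂ) (h : ℕ → ℝ) (m : ℕ) (f : ℕ → ℂ → ℂ) : Prop where
  sm : ∀ n, ContDiffOn ℝ ∞ (f n) B
  bd : ∀ K : Set ℂ, IsCompact K → K ⊆ B → ∃ C : ℝ, 0 ≤ C ∧
    ∀ᶠ n in atTop, ∀ z ∈ K, ‖f n z‖ * h n ^ m ≤ C

lemma SP.congr {m : ℕ} {f g : ℕ → ℂ → ℂ} (H : SP B h m f)
    (e : ∀ n, ∀ z ∈ B, g n z = f n z) : SP B h m g := by
  refine ⟨fun n => (H.sm n).congr (e n), fun K hK hKB => ?_⟩
  obtain ⟨C, hC0, hC⟩ := H.bd K hK hKB
  exact ⟨C, hC0, hC.mono fun n hn z hz => by rw [e n z (hKB hz)]; exact hn z hz⟩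

lemma SP.add {m : ℕ} {f g : ℕ → ℂ → ℂ} (hp : ∀ n, 0 < h n) (H : SP B h m f) (G : SP B h m g) :
    SP B h m (fun n z => f n z + g n z) := by
  refine ⟨fun n => (H.sm n).add (G.sm n), fun K hK hKB => ?_⟩
  obtain ⟨C, hC0, hC⟩ := H.bd K hK hKB
  obtain ⟨D, hD0, hD⟩ := G.bd K hK hKB
  refine ⟨C + D, by positivity, ?_⟩
  filter_upwards [hC, hD] with n h1 h2 z hz
  have h3 : 0 ≤ h n ^ m := pow_nonneg (hp n).le m
  calc ‖f n z + g n z‖ * h n ^ m ≤ (‖f n z‖ + ‖g n z‖) * h n ^ m :=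
        mul_le_mul_of_nonneg_right (norm_add_le _ _) h3
    _ = ‖f n z‖ * h n ^ m + ‖g n z‖ * h n ^ m := by ring
    _ ≤ C + D := add_le_add (h1 z hz) (h2 z hz)

lemma SP.mul {m m' : ℕ} {f g : ℕ → ℂ → ℂ} (hp : ∀ n, 0 < h n) (H : SP B h m f)
    (G : SP B h m' g) : SP B h (m + m') (fun n z => f n z * g n z) := by
  refine ⟨fun n => (H.sm n).mul (G.sm n), fun K hK hKB => ?_⟩
  obtain ⟨C, hC0, hC⟩ := H.bd K hK hKB
  obtain ⟨D, hD0, hD⟩ := G.bd K hK hKB
  refine ⟨C * D, by positivity, ?_⟩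
  filter_upwards [hC, hD] with n h1 h2 z hz
  have h4 : 0 ≤ ‖g n z‖ * h n ^ m' := mul_nonneg (norm_nonneg _) (pow_nonneg (hp n).le _)
  calc ‖f n z * g n z‖ * h n ^ (m + m') = (‖f n z‖ * h n ^ m) * (‖g n z‖ * h n ^ m') := by
        rw [norm_mul, pow_add]; ring
    _ ≤ C * D := mul_le_mul (h1 z hz) (h2 z hz) h4 hC0

lemma SP.smulc {m : ℕ} {f : ℕ → ℂ → ℂ} (hp : ∀ n, 0 < h n) (H : SP B h m f) {c : ℂ → ℂ}
    (hc : ContDiffOn ℝ ∞ c B) : SP B h m (fun n z => c z * f n z) := by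
  refine ⟨fun n => hc.mul (H.sm n), fun K hK hKB => ?_⟩
  obtain ⟨C, hC0, hC⟩ := H.bd K hK hKB
  obtain ⟨M, hM⟩ := hK.exists_bound_of_continuousOn (hc.continuousOn.mono hKB)
  refine ⟨|M| * C, by positivity, ?_⟩
  filter_upwards [hC] with n h1 z hz
  have h4 : 0 ≤ ‖f n z‖ * h n ^ m := mul_nonneg (norm_nonneg _) (pow_nonneg (hp n).le _)
  calc ‖c z * f n z‖ * h n ^ m = ‖c z‖ * (‖f n z‖ * h n ^ m) := by rw [norm_mul]; ring
    _ ≤ |M| * C := mul_le_mul ((hM z hz).trans (le_abs_self M)) (h1 z hz) h4 (abs_nonneg M)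

lemma ev_h1 (hh : Tendsto h atTop (𝓝 0)) : ∀ᶠ n in atTop, h n < 1 :=
  hh.eventually (gt_mem_nhds one_pos)

lemma SP.hmul {m : ℕ} {f : ℕ → ℂ → ℂ} (hp : ∀ n, 0 < h n) (hh : Tendsto h atTop (𝓝 0))
    (H : SP B h m f) : SP B h m (fun n z => (h n : ℂ) * f n z) := by
  refine ⟨fun n => contDiffOn_const.mul (H.sm n), fun K hK hKB => ?_⟩
  obtain ⟨C, hC0, hC⟩ := H.bd K hK hKB
  refine ⟨C, hC0, ?_⟩
  filter_upwards [hC, ev_h1 hh] with n h1 h2 z hz
  have h4 : 0 ≤ ‖f n z‖ * h n ^ m := mul_nonneg (norm_nonneg _) (pow_nonneg (hp n).le _)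
  calc ‖(h n : ℂ) * f n z‖ * h n ^ m = h n * (‖f n z‖ * h n ^ m) := by
        rw [norm_mul, Complex.norm_real, Real.norm_eq_abs, abs_of_pos (hp n)]; ring
    _ ≤ 1 * (‖f n z‖ * h n ^ m) := mul_le_mul_of_nonneg_right h2.le h4
    _ ≤ C := by rw [one_mul]; exact h1 z hz

lemma SP.const (hp : ∀ n, 0 < h n) {c : ℂ → ℂ} (hc : ContDiffOn ℝ ∞ c B) :
    SP B h 0 (fun _ z => c z) := by
  refine ⟨fun _ => hc, fun K hK hKB => ?_⟩
  obtain ⟨M, hM⟩ := hK.exists_bound_of_continuousOn (hc.continuousOn.mono hKB)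
  refine ⟨|M|, abs_nonneg M, Eventually.of_forall fun n z hz => ?_⟩
  rw [pow_zero, mul_one]
  exact (hM z hz).trans (le_abs_self M)

/-- semiclassical derivatives of order at most `k` are locally `O(h^(-m))` -/
def SK (B : Set ℂ) (h : ℕ → ℝ) (m : ℕ) : ℕ → (ℕ → ℂ → ℂ) → Prop
  | 0, f => SP B h m f
  | (k + 1), f => SP B h m f ∧ SK B h m k (hd h 1 f) ∧ SK B h m k (hd h I f)

lemma SK.sp {m k : ℕ} {f : ℕ → ℂ → ℂ} (H : SK B h m k f) : SP B h m f := by
  cases k with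
  | zero => exact H
  | succ k => exact H.1

lemma SK.congr (hB : IsOpen B) {m k : ℕ} : ∀ {f g : ℕ → ℂ → ℂ}, SK B h m k f →
    (∀ n, ∀ z ∈ B, g n z = f n z) → SK B h m k g := by
  induction k with
  | zero => intro f g H e; exact SP.congr H e
  | succ k ih =>
    intro f g H e
    exact ⟨H.1.congr e, ih H.2.1 (hd_congr hB e 1), ih H.2.2 (hd_congr hB e I)⟩

lemma SK.down {m k : ℕ} : ∀ {f : ℕ → ℂ → ℂ}, SK B h m (k + 1) f → SK B h m k f := by
  induction k with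
  | zero => intro f H; exact H.1
  | succ k ih => intro f H; exact ⟨H.1, ih H.2.1, ih H.2.2⟩

lemma SK.add (hB : IsOpen B) (hp : ∀ n, 0 < h n) {m k : ℕ} : ∀ {f g : ℕ → ℂ → ℂ},
    SK B h m k f → SK B h m k g → SK B h m k (fun n z => f n z + g n z) := by
  induction k with
  | zero => intro f g H G; exact SP.add hp H G
  | succ k ih =>
    intro f g H G
    have e : ∀ v, ∀ n, ∀ z ∈ B, hd h v (fun n z => f n z + g n z) n z =
        hd h v f n z + hd h v g n z := by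
      intro v n z hz
      simp only [hd]
      rw [fderiv_fun_add (fda hB (H.1.sm n) hz) (fda hB (G.1.sm n) hz)]
      simp only [add_apply]; ring
    exact ⟨H.1.add hp G.1, (ih H.2.1 G.2.1).congr hB (e 1), (ih H.2.2 G.2.2).congr hB (e I)⟩

lemma SK.hmul (hB : IsOpen B) (hp : ∀ n, 0 < h n) (hh : Tendsto h atTop (𝓝 0)) {m k : ℕ} :
    ∀ {f : ℕ → ℂ → ℂ}, SK B h m k f → SK B h m k (fun n z => (h n : ℂ) * f n z) := by
  induction k with
  | zero => intro f H; exact SP.hmul hp hh H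
  | succ k ih =>
    intro f H
    have e : ∀ v, ∀ n, ∀ z ∈ B, hd h v (fun n z => (h n : ℂ) * f n z) n z =
        (h n : ℂ) * hd h v f n z := by
      intro v n z hz
      simp only [hd]
      rw [fderiv_const_mul (fda hB (H.1.sm n) hz)]
      simp only [smul_apply, smul_eq_mul]
    exact ⟨H.1.hmul hp hh, (ih H.2.1).congr hB (e 1), (ih H.2.2).congr hB (e I)⟩

lemma SK.smulc (hB : IsOpen B) (hp : ∀ n, 0 < h n) (hh : Tendsto h atTop (𝓝 0)) {m k : ℕ} :
    ∀ {f : ℕ → ℂ → ℂ} {c : ℂ → ℂ}, SK B h m k f → ContDiffOn ℝ ∞ c B →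
      SK B h m k (fun n z => c z * f n z) := by
  induction k with
  | zero => intro f c H hc; exact SP.smulc hp H hc
  | succ k ih =>
    intro f c H hc
    have e : ∀ v, ∀ n, ∀ z ∈ B, hd h v (fun n z => c z * f n z) n z =
        c z * hd h v f n z + fderiv ℝ c z v * ((h n : ℂ) * f n z) := by
      intro v n z hz
      simp only [hd]
      rw [fderiv_fun_mul (fda hB hc hz) (fda hB (H.1.sm n) hz)]
      simp only [add_apply, smul_apply, smul_eq_mul]; ring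
    have hc' : ∀ v, ContDiffOn ℝ ∞ (fun z => fderiv ℝ c z v) B := fun v =>
      Pool.Agent.W98.RW.cd_fderiv hB hc v
    have hf : SK B h m k (fun n z => (h n : ℂ) * f n z) := (SK.down H).hmul hB hp hh
    exact ⟨H.1.smulc hp hc, ((ih H.2.1 hc).add hB hp (ih hf (hc' 1))).congr hB (e 1),
      ((ih H.2.2 hc).add hB hp (ih hf (hc' I))).congr hB (e I)⟩

lemma SK.mul (hB : IsOpen B) (hp : ∀ n, 0 < h n) {m m' k : ℕ} :
    ∀ {f g : ℕ → ℂ → ℂ}, SK B h m k f → SK B h m' k g →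
      SK B h (m + m') k (fun n z => f n z * g n z) := by
  induction k with
  | zero => intro f g H G; exact SP.mul hp H G
  | succ k ih =>
    intro f g H G
    have e : ∀ v, ∀ n, ∀ z ∈ B, hd h v (fun n z => f n z * g n z) n z =
        f n z * hd h v g n z + hd h v f n z * g n z := by
      intro v n z hz
      simp only [hd]
      rw [fderiv_fun_mul (fda hB (H.1.sm n) hz) (fda hB (G.1.sm n) hz)]
      simp only [add_apply, smul_apply, smul_eq_mul]; ring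
    exact ⟨H.1.mul hp G.1,
      ((ih H.down G.2.1).add hB hp (ih H.2.1 G.down)).congr hB (e 1),
      ((ih H.down G.2.2).add hB hp (ih H.2.2 G.down)).congr hB (e I)⟩

lemma SK.const (hB : IsOpen B) (hp : ∀ n, 0 < h n) (hh : Tendsto h atTop (𝓝 0)) {k : ℕ} :
    ∀ {c : ℂ → ℂ}, ContDiffOn ℝ ∞ c B → SK B h 0 k (fun _ z => c z) := by
  induction k with
  | zero => intro c hc; exact SP.const hp hc
  | succ k ih =>
    intro c hc
    have hc' : ∀ v, ContDiffOn ℝ ∞ (fun z => fderiv ℝ c z v) B := fun v =>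
      Pool.Agent.W98.RW.cd_fderiv hB hc v
    exact ⟨SP.const hp hc, (ih (hc' 1)).hmul hB hp hh, (ih (hc' I)).hmul hB hp hh⟩

lemma SK.pow (hB : IsOpen B) (hp : ∀ n, 0 < h n) (hh : Tendsto h atTop (𝓝 0)) {m k : ℕ}
    {f : ℕ → ℂ → ℂ} (H : SK B h m k f) (a : ℕ) :
    SK B h (a * m) k (fun n z => f n z ^ a) := by
  induction a with
  | zero =>
    have := SK.const (k := k) hB hp hh (c := fun _ : ℂ => (1 : ℂ)) contDiffOn_const
    simpa using this
  | succ a ih =>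
    have h1 := ih.mul hB hp H
    rw [Nat.succ_mul]
    exact h1.congr hB fun n z _ => pow_succ _ _

lemma SK.prod (hB : IsOpen B) (hp : ∀ n, 0 < h n) (hh : Tendsto h atTop (𝓝 0)) {k : ℕ}
    {ι : Type*} (s : Finset ι) (m : ι → ℕ) (F : ι → ℕ → ℂ → ℂ)
    (H : ∀ i ∈ s, SK B h (m i) k (F i)) :
    SK B h (∑ i ∈ s, m i) k (fun n z => ∏ i ∈ s, F i n z) := by
  classical
  induction s using Finset.induction_on with
  | empty =>
    have := SK.const (k := k) hB hp hh (c := fun _ : ℂ => (1 : ℂ)) contDiffOn_const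
    simpa using this
  | insert i s hi ih =>
    have h1 := (H i (Finset.mem_insert_self i s)).mul hB hp
      (ih fun j hj => H j (Finset.mem_insert_of_mem hj))
    rw [Finset.sum_insert hi]
    exact h1.congr hB fun n z _ => Finset.prod_insert hi

lemma SK.hL (hB : IsOpen B) (hp : ∀ n, 0 < h n) {m k : ℕ} {f : ℕ → ℂ → ℂ}
    (H : SK B h m (k + 2) f) : SK B h m k (hL h f) := by
  have h1 := H.2.1.2.1
  have h2 := H.2.2.2.2
  refine (h1.add hB hp h2).congr hB fun n z hz => ?_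
  have e : ∀ v : ℂ, hd h v (hd h v f) n z =
      (h n : ℂ) ^ 2 * fderiv ℝ (fun w => fderiv ℝ (f n) w v) z v := by
    intro v
    show (h n : ℂ) * fderiv ℝ (fun w => (h n : ℂ) * fderiv ℝ (f n) w v) z v = _
    rw [fderiv_const_mul (Pool.Agent.W98.RW.diffAt hB
      (Pool.Agent.W98.RW.cd_fderiv hB (H.sp.sm n) v) hz)]
    simp only [smul_apply, smul_eq_mul]; ring
  rw [e, e]
  show (h n : ℂ) ^ 2 * (fderiv ℝ (fun w => fderiv ℝ (f n) w 1) z 1 +
    fderiv ℝ (fun w => fderiv ℝ (f n) w I) z I) = _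
  ring

/-- bounded scalars -/
lemma lb_bmul {p : ℕ} {f : ℕ → ℂ → ℂ} (H : LB B p f) {c : ℕ → ℝ} {M : ℝ}
    (hc : ∀ᶠ n in atTop, |c n| ≤ M) : LB B p (fun n z => (c n : ℂ) * f n z) := by
  refine ⟨fun n => contDiffOn_const.mul (H.sm n), fun K hK hKB => ?_⟩
  obtain ⟨C, hC⟩ := H.bd K hK hKB
  refine ⟨|M| ^ p * C, ?_⟩
  filter_upwards [hC, hc] with n h1 h2
  have e : ∀ z, ‖(c n : ℂ) * f n z‖ ^ p = |c n| ^ p * ‖f n z‖ ^ p := by
    intro z
    rw [norm_mul, mul_pow, Complex.norm_real, Real.norm_eq_abs]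
  simp only [e]
  rw [integral_const_mul]
  have h3 : 0 ≤ ∫ z in K, ‖f n z‖ ^ p := integral_nonneg fun z => by positivity
  exact mul_le_mul (pow_le_pow_left₀ (abs_nonneg _) (h2.trans (le_abs_self M)) p) h1 h3
    (by positivity)

lemma mk_bmul (hB : IsOpen B) {k : ℕ} : ∀ {f : ℕ → ℂ → ℂ} {c : ℕ → ℝ} {M : ℝ}, MK2 B h k f →
    (∀ᶠ n in atTop, |c n| ≤ M) → MK2 B h k (fun n z => (c n : ℂ) * f n z) := by
  induction k with
  | zero => intro f c M H hc; exact lb_bmul H hc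
  | succ k ih =>
    intro f c M H hc
    have e : ∀ v, ∀ n, ∀ z ∈ B, hd h v (fun n z => (c n : ℂ) * f n z) n z =
        (c n : ℂ) * hd h v f n z := by
      intro v n z hz
      simp only [hd]
      rw [fderiv_const_mul (fda hB (H.1.sm n) hz)]
      simp only [smul_apply, smul_eq_mul]; ring
    exact ⟨lb_bmul H.1 hc, (ih H.2.1 hc).congr hB (e 1), (ih H.2.2 hc).congr hB (e I)⟩

/-- all derivatives of solutions of frequency at most `1/h` are bounded -/
theorem mk_sol (hB : IsOpen B) (hp : ∀ n, 0 < h n) (hh : Tendsto h atTop (𝓝 0))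
    {f : ℕ → ℂ → ℂ} (hf : LB B 2 f) {ρ : ℂ → ℂ} (hρ : ContDiffOn ℝ ∞ ρ B) {c : ℕ → ℝ} {M : ℝ}
    (hc : ∀ᶠ n in atTop, |c n| ≤ M)
    (he : ∀ n, ∀ z ∈ B, Pool.Agent.TH294.RS.hL h f n z = - ((c n : ℂ) * (ρ z * f n z)))
    (k : ℕ) : MK2 B h k f := by
  induction k with
  | zero => exact hf
  | succ k ih =>
    exact ih.ell hB hp hh (((mk_bmul hB (ih.smulc hB hh hρ) hc).neg hB hh).congr hB he)

/-- two derivatives in `L²` give a pointwise bound -/
lemma mk_sp (hB : IsOpen B) (hp : ∀ n, 0 < h n) (hh : Tendsto h atTop (𝓝 0))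
    {f : ℕ → ℂ → ℂ} (H : MK2 B h 2 f) : SP B h 2 f := by
  refine ⟨H.1.sm, fun K hK hKB => ?_⟩
  obtain ⟨χ, hχ, hχ1, hχ0, hχ2⟩ := exists_cut hB hK hKB
  set T : Set ℂ := tsupport χ with hT
  have hTc : IsCompact T := hχ.2.1
  have hTB : T ⊆ B := hχ.2.2
  have cχ : ContDiff ℝ ∞ (fun z => (χ z : ℂ)) := Complex.ofRealCLM.contDiff.comp hχ.1
  have HU := H.smulc hB hh (c := fun z => (χ z : ℂ)) cχ.contDiffOn
  obtain ⟨C, hC⟩ := HU.2.1.2.2.bd T hTc hTB
  refine ⟨(∫ z in T, (1 : ℝ)) + C + |C|, ?_, ?_⟩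
  · have : 0 ≤ ∫ z in T, (1 : ℝ) := integral_nonneg fun z => zero_le_one
    have := neg_abs_le C
    linarith
  filter_upwards [hC] with n hn z hz
  obtain ⟨U, hU⟩ : ∃ U : ℂ → ℂ, U = fun z => (χ z : ℂ) * f n z := ⟨_, rfl⟩
  have zT : ∀ w, w ∉ T → U w = 0 := fun w hw => by
    rw [hU]
    show (χ w : ℂ) * f n w = 0
    rw [image_eq_zero_of_notMem_tsupport hw]; simp
  have cU : ContDiff ℝ ∞ U := by
    refine contDiff_iff_contDiffAt.2 fun w => ?_
    by_cases hw : w ∈ B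
    · rw [hU]
      exact cχ.contDiffAt.mul ((H.1.sm n).contDiffAt (hB.mem_nhds hw))
    · have h1 : U =ᶠ[𝓝 w] fun _ => 0 := by
        filter_upwards [(isClosed_tsupport χ).isOpen_compl.mem_nhds
          (fun h => hw (hTB h) : w ∈ Tᶜ)] with w' hw'
        exact zT w' hw'
      exact contDiffAt_const.congr_of_eventuallyEq h1
  have sU : HasCompactSupport U := HasCompactSupport.intro hTc zT
  have h1 := sup_le cU sU z
  have eU : U z = f n z := by rw [hU]; simp [hχ1 z hz]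
  rw [eU] at h1
  have z2 : ∀ w, w ∉ T → fderiv ℝ (fun w' => fderiv ℝ U w' 1) w I = 0 := by
    intro w hw
    have e0 : ∀ w' ∈ Tᶜ, fderiv ℝ U w' 1 = 0 := by
      intro w' hw'
      have : U =ᶠ[𝓝 w'] fun _ => 0 := by
        filter_upwards [hTc.isClosed.isOpen_compl.mem_nhds hw'] with x hx
        exact zT x hx
      rw [this.fderiv_eq]; simp
    have : (fun w' => fderiv ℝ U w' 1) =ᶠ[𝓝 w] fun _ => 0 := by
      filter_upwards [hTc.isClosed.isOpen_compl.mem_nhds (hw : w ∈ Tᶜ)] with x hx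
      exact e0 x hx
    rw [this.fderiv_eq]; simp
  have h2 : ∫ w, ‖fderiv ℝ (fun w' => fderiv ℝ U w' 1) w I‖ =
      ∫ w in T, ‖fderiv ℝ (fun w' => fderiv ℝ U w' 1) w I‖ := by
    refine (setIntegral_eq_integral_of_forall_compl_eq_zero fun w hw => ?_).symm
    rw [z2 w hw, norm_zero]
  have cW : ContDiff ℝ ∞ (fun w => fderiv ℝ (fun w' => fderiv ℝ U w' 1) w I) :=
    cdv (cdv cU 1) I
  have h3 : (∫ w in T, ‖fderiv ℝ (fun w' => fderiv ℝ U w' 1) w I‖) * h n ^ 2 =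
      ∫ w in T, ‖hd h I (hd h 1 (fun n z => (χ z : ℂ) * f n z)) n w‖ := by
    rw [← integral_mul_const]
    refine setIntegral_congr_fun hTc.measurableSet fun w hw => ?_
    have e : hd h I (hd h 1 (fun n z => (χ z : ℂ) * f n z)) n w =
        (h n : ℂ) ^ 2 * fderiv ℝ (fun w' => fderiv ℝ U w' 1) w I := by
      show (h n : ℂ) * fderiv ℝ (fun w => (h n : ℂ) *
        fderiv ℝ (fun z => (χ z : ℂ) * f n z) w 1) w I = _
      rw [← hU, fderiv_const_mul ((cdv cU 1).differentiable (by simp) w)]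
      simp only [smul_apply, smul_eq_mul]; ring
    simp only [e]
    rw [norm_mul, norm_pow, Complex.norm_real, Real.norm_eq_abs, abs_of_pos (hp n)]
    ring
  have cH : ContinuousOn (fun w => ‖hd h I (hd h 1 (fun n z => (χ z : ℂ) * f n z)) n w‖) T :=
    ((HU.2.1.2.2.sm n).continuousOn.mono hTB).norm
  have h4 : ∫ w in T, ‖hd h I (hd h 1 (fun n z => (χ z : ℂ) * f n z)) n w‖ ≤
      1 * ((∫ z in T, (1 : ℝ)) + C) := by
    refine intK_lin hTc zero_le_one cH continuousOn_const (cH.pow 2) (fun w _ => ?_) le_rfl hn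
    show ‖hd h I (hd h 1 (fun n z => (χ z : ℂ) * f n z)) n w‖ ≤
      1 * (1 + ‖hd h I (hd h 1 (fun n z => (χ z : ℂ) * f n z)) n w‖ ^ 2)
    nlinarith [sq_nonneg (‖hd h I (hd h 1 (fun n z => (χ z : ℂ) * f n z)) n w‖ - 1)]
  have h5 : ‖f n z‖ * h n ^ 2 ≤
      (∫ w in T, ‖fderiv ℝ (fun w' => fderiv ℝ U w' 1) w I‖) * h n ^ 2 := by
    rw [← h2]
    exact mul_le_mul_of_nonneg_right h1 (by positivity)
  rw [h3] at h5
  have := abs_nonneg C
  linarith

lemma mk_sk (hB : IsOpen B) (hp : ∀ n, 0 < h n) (hh : Tendsto h atTop (𝓝 0)) {k : ℕ} :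
    ∀ {f : ℕ → ℂ → ℂ}, MK2 B h (k + 2) f → SK B h 2 k f := by
  induction k with
  | zero => intro f H; exact mk_sp hB hp hh H
  | succ k ih =>
    intro f H
    have h2 : ∀ j : ℕ, MK2 B h (j + 2) f → MK2 B h 2 f := by
      intro j
      induction j with
      | zero => exact fun h => h
      | succ j ihj => exact fun h => ihj h.down
    exact ⟨mk_sp hB hp hh (h2 _ H), ih H.2.1, ih H.2.2⟩

end

end Pool.Agent.TH421.DF
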