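import Pool.Agent.TH421.DF.Cls

/-!
Project DF (helper421): integration by parts against an eigenfunction of dominating frequency.
-/

set_option autoImplicit false
open MeasureTheory Filter Topology Complex
open scoped ContDiff ENNReal

namespace Pool.Agent.TH421.DF

open Pool.Agent.W745.RW Pool.Agent.TH294.RS Pool.Agent.TH294.RG

noncomputable section

variable {B S : Set ℂ} {h : ℕ → ℝ}

lemma nh_zero (hS : IsCompact S) {G : ℂ → ℂ} (h0 : ∀ z, z ∉ S → G z = 0) {z : ℂ} (hz : z ∉ S) :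
    G =ᶠ[𝓝 z] fun _ => 0 := by
  filter_upwards [hS.isClosed.isOpen_compl.mem_nhds (hz : z ∈ Sᶜ)] with w hw
  exact h0 w hw

lemma fd_zero (hS : IsCompact S) {G : ℂ → ℂ} (h0 : ∀ z, z ∉ S → G z = 0) (v : ℂ) {z : ℂ}
    (hz : z ∉ S) : fderiv ℝ G z v = 0 := by
  rw [(nh_zero hS h0 hz).fderiv_eq]; simp

lemma lap_zero (hS : IsCompact S) {G : ℂ → ℂ} (h0 : ∀ z, z ∉ S → G z = 0) {z : ℂ}
    (hz : z ∉ S) : lap G z = 0 := by
  have h1 : ∀ v : ℂ, fderiv ℝ (fun w => fderiv ℝ G w v) z v = 0 := fun v =>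
    fd_zero hS (G := fun w => fderiv ℝ G w v) (fun w hw => fd_zero hS h0 v hw) v hz
  have e : lap G z = fderiv ℝ (fun w => fderiv ℝ G w 1) z 1 +
    fderiv ℝ (fun w => fderiv ℝ G w I) z I := rfl
  rw [e, h1, h1, add_zero]

lemma glob_cd (hB : IsOpen B) (hS : IsCompact S) (hSB : S ⊆ B) {G : ℂ → ℂ}
    (hG : ContDiffOn ℝ ∞ G B) (h0 : ∀ z, z ∉ S → G z = 0) : ContDiff ℝ ∞ G := by
  refine contDiff_iff_contDiffAt.2 fun w => ?_
  by_cases hw : w ∈ B
  · exact hG.contDiffAt (hB.mem_nhds hw)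
  · exact contDiffAt_const.congr_of_eventuallyEq (nh_zero hS h0 fun h => hw (hSB h))

lemma cint (hS : IsCompact S) (hSB : S ⊆ B) {F : ℂ → ℂ} (hF : ContinuousOn F B)
    (h0 : ∀ z, z ∉ S → F z = 0) : Integrable F := by
  have h1 : IntegrableOn F S := (hF.mono hSB).integrableOn_compact hS
  refine (integrableOn_iff_integrable_of_support_subset fun z hz => ?_).1 h1
  by_contra hzS
  exact hz (h0 z hzS)

lemma int0 (hB : IsOpen B) (hS : IsCompact S) (hSB : S ⊆ B) {U : ℂ → ℂ}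
    (hU : ContDiffOn ℝ ∞ U B) (h0 : ∀ z, z ∉ S → U z = 0) (v : ℂ) :
    Integrable (fun z => fderiv ℝ U z v) ∧ ∫ z, fderiv ℝ U z v = 0 := by
  have cU := glob_cd hB hS hSB hU h0
  have sU : HasCompactSupport U := HasCompactSupport.intro hS h0
  have hi : Integrable (fun z => fderiv ℝ U z v) :=
    (cdv cU v).continuous.integrable_of_hasCompactSupport (sU.fderiv_apply ℝ v)
  refine ⟨hi, ?_⟩
  have h2 := integral_mul_fderiv_eq_neg_fderiv_mul_of_integrable (μ := (volume : Measure ℂ))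
    (f := fun _ : ℂ => (1 : ℂ)) (g := U) (v := v) (by simp) (by simpa using hi)
    (by simpa using cU.continuous.integrable_of_hasCompactSupport sU)
    (fun x _ => differentiableAt_const _) (fun x _ => cU.differentiable (by simp) x)
  simpa using h2

/-- Green's formula -/
theorem green (hB : IsOpen B) (hS : IsCompact S) (hSB : S ⊆ B) {G f : ℂ → ℂ}
    (hG : ContDiffOn ℝ ∞ G B) (hf : ContDiffOn ℝ ∞ f B) (h0 : ∀ z, z ∉ S → G z = 0) :
    ∫ z, G z * lap f z = ∫ z, lap G z * f z := by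
  have sd : ∀ {F : ℂ → ℂ}, ContDiffOn ℝ ∞ F B → ∀ v, ContDiffOn ℝ ∞ (fun z => fderiv ℝ F z v) B :=
    fun hF v => Pool.Agent.W98.RW.cd_fderiv hB hF v
  have sl : ∀ {F : ℂ → ℂ}, ContDiffOn ℝ ∞ F B → ContDiffOn ℝ ∞ (lap F) B := fun hF =>
    (sd (sd hF 1) 1).add (sd (sd hF I) I)
  obtain ⟨U, hU⟩ : ∃ U : ℂ → ℂ → ℂ, U = fun v z => G z * fderiv ℝ f z v - fderiv ℝ G z v * f z :=
    ⟨_, rfl⟩
  have cU : ∀ v, ContDiffOn ℝ ∞ (U v) B := by
    intro v; rw [hU]
    exact (hG.mul (sd hf v)).sub ((sd hG v).mul hf)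
  have zU : ∀ v z, z ∉ S → U v z = 0 := by
    intro v z hz
    rw [hU]
    show G z * fderiv ℝ f z v - fderiv ℝ G z v * f z = 0
    rw [h0 z hz, fd_zero hS h0 v hz]; ring
  have key : ∀ z, G z * lap f z - lap G z * f z = fderiv ℝ (U 1) z 1 + fderiv ℝ (U I) z I := by
    intro z
    by_cases hz : z ∈ B
    · have e : ∀ v : ℂ, fderiv ℝ (U v) z v =
          G z * fderiv ℝ (fun w => fderiv ℝ f w v) z v -
          fderiv ℝ (fun w => fderiv ℝ G w v) z v * f z := by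
        intro v
        have d1 := Pool.Agent.W98.RW.diffAt hB hG hz
        have d2 := Pool.Agent.W98.RW.diffAt hB hf hz
        have d3 := Pool.Agent.W98.RW.diffAt hB (sd hG v) hz
        have d4 := Pool.Agent.W98.RW.diffAt hB (sd hf v) hz
        have e2 := ((d1.hasFDerivAt.mul d4.hasFDerivAt).sub
          (d3.hasFDerivAt.mul d2.hasFDerivAt)).fderiv
        rw [hU]
        have e3 := congrArg (fun L : ℂ →L[ℝ] ℂ => L v) e2
        refine Eq.trans e3 ?_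
        simp only [sub_apply, add_apply, smul_apply, smul_eq_mul]
        ring
      rw [e, e]
      show G z * (fderiv ℝ (fun w => fderiv ℝ f w 1) z 1 + fderiv ℝ (fun w => fderiv ℝ f w I) z I) -
        (fderiv ℝ (fun w => fderiv ℝ G w 1) z 1 + fderiv ℝ (fun w => fderiv ℝ G w I) z I) * f z = _
      ring
    · have hzS : z ∉ S := fun h => hz (hSB h)
      rw [h0 z hzS, lap_zero hS h0 hzS, fd_zero hS (zU 1) 1 hzS, fd_zero hS (zU I) I hzS]
      ring
  obtain ⟨i1, j1⟩ := int0 hB hS hSB (cU 1) (zU 1) 1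
  obtain ⟨i2, j2⟩ := int0 hB hS hSB (cU I) (zU I) I
  have k1 : Integrable (fun z => G z * lap f z) :=
    cint hS hSB (hG.continuousOn.mul (sl hf).continuousOn) fun z hz => by rw [h0 z hz, zero_mul]
  have k2 : Integrable (fun z => lap G z * f z) :=
    cint hS hSB ((sl hG).continuousOn.mul hf.continuousOn) fun z hz => by
      rw [lap_zero hS h0 hz, zero_mul]
  have h3 : ∫ z, (G z * lap f z - lap G z * f z) = 0 := by
    simp only [key]
    rw [integral_add i1 i2, j1, j2, add_zero]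
  rw [integral_sub k1 k2] at h3
  exact sub_eq_zero.1 h3

/-- the upper half plane -/
def HP : Set ℂ := {z | 0 < z.im}

lemma HPo : IsOpen HP := isOpen_lt continuous_const continuous_im

lemma im_cd : ContDiff ℝ ∞ (fun z : ℂ => (z.im : ℂ)) :=
  Complex.ofRealCLM.contDiff.comp imCLM.contDiff

lemma iy_cd : ContDiffOn ℝ ∞ (fun z : ℂ => ((z.im : ℂ) ^ 2)⁻¹) HP := by
  refine ContDiffOn.inv (im_cd.pow 2).contDiffOn fun z hz => ?_
  have : z.im ≠ 0 := ne_of_gt hz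
  exact pow_ne_zero 2 (by exact_mod_cast this)

/-- `h² y² Δ` -/
def TT (h : ℕ → ℝ) (G : ℕ → ℂ → ℂ) (n : ℕ) (z : ℂ) : ℂ := (z.im : ℂ) ^ 2 * hL h G n z

lemma J_step {n : ℕ} (hp : 0 < h n) (hS : IsCompact S) (hSH : S ⊆ HP) {G : ℕ → ℂ → ℂ}
    (hG : ContDiffOn ℝ ∞ (G n) HP) (h0 : ∀ z, z ∉ S → G n z = 0) {f : ℂ → ℂ} {lam : ℝ}
    (hf : ContDiffOn ℝ ∞ f HP)
    (he : ∀ z ∈ HP, (z.im : ℂ) ^ 2 * lap f z = -((lam : ℂ) * f z)) :
    ((h n ^ 2 * lam : ℝ) : ℂ) * ∫ z, G n z * f z / (z.im : ℂ) ^ 2 =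
      - ∫ z, TT h G n z * f z / (z.im : ℂ) ^ 2 := by
  have g := green HPo hS hSH hG hf h0
  have e1 : (lam : ℂ) * ∫ z, G n z * f z / (z.im : ℂ) ^ 2 = - ∫ z, G n z * lap f z := by
    rw [← integral_const_mul, ← integral_neg]
    congr 1; funext z
    by_cases hz : z ∈ S
    · have h1 : (z.im : ℂ) ≠ 0 := by exact_mod_cast (ne_of_gt (hSH hz : 0 < z.im))
      have h2 := he z (hSH hz)
      field_simp
      linear_combination (G n z) * h2
    · rw [h0 z hz]; simp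
  have e2 : ∫ z, TT h G n z * f z / (z.im : ℂ) ^ 2 = (h n : ℂ) ^ 2 * ∫ z, lap (G n) z * f z := by
    rw [← integral_const_mul]
    congr 1; funext z
    by_cases hz : z ∈ S
    · have h1 : (z.im : ℂ) ≠ 0 := by exact_mod_cast (ne_of_gt (hSH hz : 0 < z.im))
      simp only [TT, hL]
      field_simp
    · simp only [TT, hL]
      rw [lap_zero hS h0 hz]; simp
  rw [e2, ← g]
  push_cast
  linear_combination ((h n : ℂ) ^ 2) * e1

/-- repeated integration by parts -/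
theorem core (hp : ∀ n, 0 < h n) (hh : Tendsto h atTop (𝓝 0)) (hS : IsCompact S) (hSH : S ⊆ HP)
    {m : ℕ} {f : ℕ → ℂ → ℂ} {lam : ℕ → ℝ} (hl : ∀ n, 0 ≤ lam n) (hf : LB HP 2 f)
    (he : ∀ n, ∀ z ∈ HP, (z.im : ℂ) ^ 2 * lap (f n) z = -((lam n : ℂ) * f n z)) (k : ℕ) :
    ∀ {G : ℕ → ℂ → ℂ}, (∀ j, SK HP h m j G) → (∀ n z, z ∉ S → G n z = 0) →
    ∃ C : ℝ, ∀ᶠ n in atTop, ‖∫ z, G n z * f n z / (z.im : ℂ) ^ 2‖ *
      ((h n ^ 2 * lam n) ^ k * h n ^ m) ≤ C := by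
  induction k with
  | zero =>
    intro G hG h0
    obtain ⟨C, hC0, hC⟩ := (hG 0).sp.bd S hS hSH
    obtain ⟨D, hD⟩ := hf.bd S hS hSH
    obtain ⟨M, hM⟩ := hS.exists_bound_of_continuousOn (iy_cd.continuousOn.mono hSH)
    refine ⟨C * |M| * ((∫ z in S, (1 : ℝ)) + D), ?_⟩
    filter_upwards [hC, hD] with n h1 h2
    have cf : ContinuousOn (fun z => ‖f n z‖) S := ((hf.sm n).continuousOn.mono hSH).norm
    have e1 : ∫ z, G n z * f n z / (z.im : ℂ) ^ 2 =
        ∫ z in S, G n z * f n z / (z.im : ℂ) ^ 2 := by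
      refine (setIntegral_eq_integral_of_forall_compl_eq_zero fun z hz => ?_).symm
      rw [h0 n z hz]; simp
    have hm : 0 < h n ^ m := pow_pos (hp n) m
    have e2 : ∀ z ∈ S, ‖G n z * f n z / (z.im : ℂ) ^ 2‖ ≤
        (C / h n ^ m) * |M| * ‖f n z‖ := by
      intro z hz
      rw [div_eq_mul_inv, norm_mul, norm_mul]
      have a1 : ‖G n z‖ ≤ C / h n ^ m := by rw [le_div_iff₀ hm]; exact h1 z hz
      have a2 : ‖((z.im : ℂ) ^ 2)⁻¹‖ ≤ |M| := (hM z hz).trans (le_abs_self M)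
      calc ‖G n z‖ * ‖f n z‖ * ‖((z.im : ℂ) ^ 2)⁻¹‖ =
            (‖G n z‖ * ‖((z.im : ℂ) ^ 2)⁻¹‖) * ‖f n z‖ := by ring
        _ ≤ ((C / h n ^ m) * |M|) * ‖f n z‖ := by
            refine mul_le_mul_of_nonneg_right ?_ (norm_nonneg _)
            exact mul_le_mul a1 a2 (norm_nonneg _) (by positivity)
    have cG : ContinuousOn (fun z => ‖G n z * f n z / (z.im : ℂ) ^ 2‖) S := by
      have c1 := ((hG 0).sp.sm n).continuousOn.mono hSH
      have c2 := (hf.sm n).continuousOn.mono hSH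
      have c3 := iy_cd.continuousOn.mono hSH
      have : ContinuousOn (fun z => G n z * f n z * ((z.im : ℂ) ^ 2)⁻¹) S := (c1.mul c2).mul c3
      simpa only [div_eq_mul_inv] using this.norm
    have e3 : ‖∫ z in S, G n z * f n z / (z.im : ℂ) ^ 2‖ ≤
        (C / h n ^ m) * |M| * ∫ z in S, ‖f n z‖ := by
      refine (norm_integral_le_integral_norm _).trans ?_
      rw [← integral_const_mul]
      exact intK_mono hS cG (continuousOn_const.mul cf) e2
    have e4 : ∫ z in S, ‖f n z‖ ≤ 1 * ((∫ z in S, (1 : ℝ)) + D) := by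
      refine intK_lin hS zero_le_one cf continuousOn_const (cf.pow 2) (fun z _ => ?_) le_rfl h2
      show ‖f n z‖ ≤ 1 * (1 + ‖f n z‖ ^ 2)
      nlinarith [sq_nonneg (‖f n z‖ - 1)]
    rw [pow_zero, one_mul, e1]
    have e5 : ‖∫ z in S, G n z * f n z / (z.im : ℂ) ^ 2‖ * h n ^ m ≤
        ((C / h n ^ m) * |M| * ∫ z in S, ‖f n z‖) * h n ^ m :=
      mul_le_mul_of_nonneg_right e3 hm.le
    have e6 : ((C / h n ^ m) * |M| * ∫ z in S, ‖f n z‖) * h n ^ m =
        C * |M| * ∫ z in S, ‖f n z‖ := by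
      field_simp
    rw [e6] at e5
    rw [one_mul] at e4
    exact e5.trans (mul_le_mul_of_nonneg_left e4 (by positivity))
  | succ k ih =>
    intro G hG h0
    have hT : ∀ j, SK HP h m j (TT h G) := fun j =>
      ((hG (j + 2)).hL HPo hp).smulc HPo hp hh (im_cd.pow 2).contDiffOn
    have zT : ∀ n z, z ∉ S → TT h G n z = 0 := by
      intro n z hz
      simp only [TT, hL]
      rw [lap_zero hS (h0 n) hz]; simp
    obtain ⟨C, hC⟩ := ih hT zT
    refine ⟨C, ?_⟩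
    filter_upwards [hC] with n hn
    have h1 := J_step (hp n) hS hSH ((hG 0).sp.sm n) (h0 n) (hf.sm n) (he n)
    have h2 := congrArg norm h1
    rw [norm_mul, norm_neg, Complex.norm_real, Real.norm_eq_abs,
      abs_of_nonneg (mul_nonneg (sq_nonneg _) (hl n))] at h2
    calc ‖∫ z, G n z * f n z / (z.im : ℂ) ^ 2‖ * ((h n ^ 2 * lam n) ^ (k + 1) * h n ^ m) =
          (h n ^ 2 * lam n * ‖∫ z, G n z * f n z / (z.im : ℂ) ^ 2‖) *
            ((h n ^ 2 * lam n) ^ k * h n ^ m) := by ring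
      _ ≤ C := by rw [h2]; exact hn

end

end Pool.Agent.TH421.DF
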