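import Pool.Agent.TH421.DF.Two

/-!
Project DF (helper421): two eigenfunctions of separated frequencies, the iteration.
-/

set_option autoImplicit false
open MeasureTheory Filter Topology Complex
open scoped ContDiff ENNReal

namespace Pool.Agent.TH421.DF

open Pool.Agent.W745.RW Pool.Agent.TH294.RS Pool.Agent.TH294.RG

noncomputable section

variable {S : Set ℂ} {κ H : ℕ → ℝ}

/-- the trilinear integral -/
def JJ (G u v : ℕ → ℂ → ℂ) (n : ℕ) : ℂ := ∫ z, G n z * (u n z * v n z) / (z.im : ℂ) ^ 2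

/-- `y²` times the semiclassical derivative -/
def DD (H : ℕ → ℝ) (w : ℂ) (G : ℕ → ℂ → ℂ) (n : ℕ) (z : ℂ) : ℂ := (z.im : ℂ) ^ 2 * hd H w G n z

lemma iJ (hS : IsCompact S) (hSH : S ⊆ HP) {G u v : ℂ → ℂ} (hG : ContDiffOn ℝ ∞ G HP)
    (hu : ContDiffOn ℝ ∞ u HP) (hv : ContDiffOn ℝ ∞ v HP) (h0 : ∀ z, z ∉ S → G z = 0) :
    Integrable (fun z => G z * (u z * v z) / (z.im : ℂ) ^ 2) := by
  have c : ContinuousOn (fun z => G z * (u z * v z) * ((z.im : ℂ) ^ 2)⁻¹) HP :=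
    ((hG.mul (hu.mul hv)).mul iy_cd).continuousOn
  simp only [div_eq_mul_inv]
  exact cint hS hSH c fun z hz => by rw [h0 z hz]; simp

lemma shd {G : ℕ → ℂ → ℂ} {n : ℕ} (hG : ContDiffOn ℝ ∞ (G n) HP) (w : ℂ) :
    ContDiffOn ℝ ∞ (hd κ w G n) HP := contDiffOn_const.mul (sdd hG w)

lemma split7 {g0 g1 g2 g3 g4 g5 g6 : ℂ → ℂ} (i0 : Integrable g0) (i1 : Integrable g1)
    (i2 : Integrable g2) (i3 : Integrable g3) (i4 : Integrable g4) (i5 : Integrable g5)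
    (i6 : Integrable g6) (a b : ℂ) :
    ∫ z, (a * g0 z - ((b * g1 z - b * g2 z) + (g3 z - g4 z) + (g5 z - g6 z))) =
      a * (∫ z, g0 z) - ((b * (∫ z, g1 z) - b * (∫ z, g2 z)) + ((∫ z, g3 z) - ∫ z, g4 z) +
        ((∫ z, g5 z) - ∫ z, g6 z)) := by
  have j0 : Integrable (fun z => a * g0 z) := i0.const_mul a
  have j1 : Integrable (fun z => b * g1 z) := i1.const_mul b
  have j2 : Integrable (fun z => b * g2 z) := i2.const_mul b
  have j12 : Integrable (fun z => b * g1 z - b * g2 z) := j1.sub j2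
  have j34 : Integrable (fun z => g3 z - g4 z) := i3.sub i4
  have j56 : Integrable (fun z => g5 z - g6 z) := i5.sub i6
  have j14 : Integrable (fun z => (b * g1 z - b * g2 z) + (g3 z - g4 z)) := j12.add j34
  have j16 : Integrable (fun z => (b * g1 z - b * g2 z) + (g3 z - g4 z) + (g5 z - g6 z)) :=
    j14.add j56
  rw [integral_sub j0 j16, integral_add j14 j56, integral_add j12 j34, integral_sub j1 j2,
    integral_sub i3 i4, integral_sub i5 i6, integral_const_mul, integral_const_mul,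
    integral_const_mul]

/-- one integration by parts -/
theorem J_id (hS : IsCompact S) (hSH : S ⊆ HP) {G u v u' v' : ℕ → ℂ → ℂ} {n : ℕ} {c c' : ℝ}
    (kp : 0 < κ n) (hG : ContDiffOn ℝ ∞ (G n) HP) (hu : ContDiffOn ℝ ∞ (u n) HP)
    (hv : ContDiffOn ℝ ∞ (v n) HP) (hu' : ContDiffOn ℝ ∞ (u' n) HP)
    (hv' : ContDiffOn ℝ ∞ (v' n) HP) (h0 : ∀ z, z ∉ S → G n z = 0)
    (eu : ∀ z ∈ HP, (z.im : ℂ) ^ 2 * hL κ u n z + (c : ℂ) * u n z = (κ n : ℂ) * u' n z)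
    (ev : ∀ z ∈ HP, (z.im : ℂ) ^ 2 * hL κ v n z + (c' : ℂ) * v n z = (κ n : ℂ) * v' n z) :
    ((H n * (c - c') / κ n : ℝ) : ℂ) * JJ G u v n =
      ((H n : ℂ) * JJ G u' v n - (H n : ℂ) * JJ G u v' n) +
      (JJ (DD H 1 G) (hd κ 1 u) v n - JJ (DD H 1 G) u (hd κ 1 v) n) +
      (JJ (DD H I G) (hd κ I u) v n - JJ (DD H I G) u (hd κ I v) n) := by
  have sy : ContDiffOn ℝ ∞ (fun z : ℂ => (z.im : ℂ) ^ 2) HP := (im_cd.pow 2).contDiffOn
  have sD : ∀ w, ContDiffOn ℝ ∞ (DD H w G n) HP := fun w => sy.mul (shd hG w)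
  have zD : ∀ w z, z ∉ S → DD H w G n z = 0 := by
    intro w z hz
    simp only [DD, hd]
    rw [fd_zero hS h0 w hz]; simp
  obtain ⟨U, hU⟩ : ∃ U : ℂ → ℂ → ℂ, U = fun w z => G n z *
    (v n z * fderiv ℝ (u n) z w - u n z * fderiv ℝ (v n) z w) := ⟨_, rfl⟩
  have cU : ∀ w, ContDiffOn ℝ ∞ (U w) HP := by
    intro w; rw [hU]
    exact hG.mul ((hv.mul (sdd hu w)).sub (hu.mul (sdd hv w)))
  have zU : ∀ w z, z ∉ S → U w z = 0 := by
    intro w z hz
    rw [hU]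
    show G n z * _ = 0
    rw [h0 z hz, zero_mul]
  have i0 := iJ hS hSH hG hu hv h0
  have i1 := iJ hS hSH hG hu' hv h0
  have i2 := iJ hS hSH hG hu hv' h0
  have i3 := iJ hS hSH (sD 1) (shd (κ := κ) hu 1) hv (zD 1)
  have i4 := iJ hS hSH (sD 1) hu (shd (κ := κ) hv 1) (zD 1)
  have i5 := iJ hS hSH (sD I) (shd (κ := κ) hu I) hv (zD I)
  have i6 := iJ hS hSH (sD I) hu (shd (κ := κ) hv I) (zD I)
  obtain ⟨p1, q1⟩ := int0 HPo hS hSH (cU 1) (zU 1) 1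
  obtain ⟨p2, q2⟩ := int0 HPo hS hSH (cU I) (zU I) I
  have key : ∀ z, ((H n * (c - c') / κ n : ℝ) : ℂ) * (G n z * (u n z * v n z) / (z.im : ℂ) ^ 2) -
      (((H n : ℂ) * (G n z * (u' n z * v n z) / (z.im : ℂ) ^ 2) -
        (H n : ℂ) * (G n z * (u n z * v' n z) / (z.im : ℂ) ^ 2)) +
      (DD H 1 G n z * (hd κ 1 u n z * v n z) / (z.im : ℂ) ^ 2 -
        DD H 1 G n z * (u n z * hd κ 1 v n z) / (z.im : ℂ) ^ 2) +
      (DD H I G n z * (hd κ I u n z * v n z) / (z.im : ℂ) ^ 2 -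
        DD H I G n z * (u n z * hd κ I v n z) / (z.im : ℂ) ^ 2)) =
      (-((κ n : ℂ) * (H n : ℂ))) * (fderiv ℝ (U 1) z 1 + fderiv ℝ (U I) z I) := by
    intro z
    by_cases hz : z ∈ HP
    · have y0 : (z.im : ℂ) ≠ 0 := by exact_mod_cast (ne_of_gt (hz : 0 < z.im))
      have k0 : (κ n : ℂ) ≠ 0 := by exact_mod_cast kp.ne'
      have e : ∀ w : ℂ, fderiv ℝ (U w) z w =
          G n z * (v n z * fderiv ℝ (fun x => fderiv ℝ (u n) x w) z w -
            u n z * fderiv ℝ (fun x => fderiv ℝ (v n) x w) z w) +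
          fderiv ℝ (G n) z w * (v n z * fderiv ℝ (u n) z w - u n z * fderiv ℝ (v n) z w) := by
        intro w
        have dG := dA hG hz
        have du := dA hu hz
        have dv := dA hv hz
        have du' := dA (sdd hu w) hz
        have dv' := dA (sdd hv w) hz
        have a1 : DifferentiableAt ℝ (fun x => v n x * fderiv ℝ (u n) x w) z := dv.mul du'
        have a2 : DifferentiableAt ℝ (fun x => u n x * fderiv ℝ (v n) x w) z := du.mul dv'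
        have a3 : DifferentiableAt ℝ (fun x => v n x * fderiv ℝ (u n) x w -
          u n x * fderiv ℝ (v n) x w) z := a1.sub a2
        rw [hU]
        show fderiv ℝ (fun x => G n x * (v n x * fderiv ℝ (u n) x w -
          u n x * fderiv ℝ (v n) x w)) z w = _
        rw [fd_mul dG a3, fd_sub a1 a2, fd_mul dv du', fd_mul du dv']
        ring
      rw [e, e]
      have b1 := eu z hz
      have b2 := ev z hz
      simp only [DD, hd, hL] at b1 b2 ⊢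
      have l1 : lap (u n) z = fderiv ℝ (fun x => fderiv ℝ (u n) x 1) z 1 +
        fderiv ℝ (fun x => fderiv ℝ (u n) x I) z I := rfl
      have l2 : lap (v n) z = fderiv ℝ (fun x => fderiv ℝ (v n) x 1) z 1 +
        fderiv ℝ (fun x => fderiv ℝ (v n) x I) z I := rfl
      rw [l1] at b1
      rw [l2] at b2
      push_cast
      field_simp
      linear_combination (H n : ℂ) * G n z * v n z * b1 - (H n : ℂ) * G n z * u n z * b2
    · have hzS : z ∉ S := fun h => hz (hSH h)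
      rw [h0 z hzS, zD 1 z hzS, zD I z hzS, fd_zero hS (zU 1) 1 hzS, fd_zero hS (zU I) I hzS]
      simp
  have tot : ∫ z, (-((κ n : ℂ) * (H n : ℂ))) * (fderiv ℝ (U 1) z 1 + fderiv ℝ (U I) z I) = 0 := by
    rw [integral_const_mul, integral_add p1 p2, q1, q2]; simp
  simp only [← key] at tot
  rw [split7 i0 i1 i2 i3 i4 i5 i6] at tot
  exact sub_eq_zero.1 tot

/-- the iteration -/
theorem core2 (kp : ∀ n, 0 < κ n) (k1 : ∀ n, κ n ≤ 1) (kl : Tendsto κ atTop (𝓝 0))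
    (Hp : ∀ n, 0 < H n) (Hl : Tendsto H atTop (𝓝 0)) (hS : IsCompact S) (hSH : S ⊆ HP)
    {m : ℕ} {f f' : ℕ → ℂ → ℂ} {c c' : ℕ → ℝ} (hf : ∀ k, MK2 HP κ k f)
    (hf' : ∀ k, MK2 HP κ k f') (hc : ∀ n, |c n| ≤ 1) (hc' : ∀ n, |c' n| ≤ 1)
    (he : ∀ n, ∀ z ∈ HP, (z.im : ℂ) ^ 2 * hL κ f n z = -((c n : ℂ) * f n z))
    (he' : ∀ n, ∀ z ∈ HP, (z.im : ℂ) ^ 2 * hL κ f' n z = -((c' n : ℂ) * f' n z)) (k : ℕ) :
    ∀ {G u v : ℕ → ℂ → ℂ}, (∀ j, SK HP H m j G) → (∀ n z, z ∉ S → G n z = 0) →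
    Md κ f u → Md κ f' v →
    ∃ C : ℝ, ∀ᶠ n in atTop, ‖JJ G u v n‖ *
      (|H n * (c n - c' n) / κ n| ^ k * H n ^ m) ≤ C := by
  have smu : ∀ {w : ℕ → ℂ → ℂ}, Md κ f w → ∀ n, ContDiffOn ℝ ∞ (w n) HP := fun hw n =>
    (hw.mk kl hf 0).lb.sm n
  have smv : ∀ {w : ℕ → ℂ → ℂ}, Md κ f' w → ∀ n, ContDiffOn ℝ ∞ (w n) HP := fun hw n =>
    (hw.mk kl hf' 0).lb.sm n
  induction k with
  | zero =>
    intro G u v hG h0 hu hv
    obtain ⟨C, hC0, hC⟩ := (hG 0).sp.bd S hS hSH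
    obtain ⟨D, hD⟩ := (hu.mk kl hf 0).lb.bd S hS hSH
    obtain ⟨D', hD'⟩ := (hv.mk kl hf' 0).lb.bd S hS hSH
    obtain ⟨M, hM⟩ := hS.exists_bound_of_continuousOn (iy_cd.continuousOn.mono hSH)
    refine ⟨C * |M| * (D + D'), ?_⟩
    filter_upwards [hC, hD, hD'] with n h1 h2 h3
    have cu : ContinuousOn (u n) S := (smu hu n).continuousOn.mono hSH
    have cv : ContinuousOn (v n) S := (smv hv n).continuousOn.mono hSH
    have e1 : JJ G u v n = ∫ z in S, G n z * (u n z * v n z) / (z.im : ℂ) ^ 2 := by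
      refine (setIntegral_eq_integral_of_forall_compl_eq_zero fun z hz => ?_).symm
      rw [h0 n z hz]; simp
    have hm : 0 < H n ^ m := pow_pos (Hp n) m
    have e2 : ∀ z ∈ S, ‖G n z * (u n z * v n z) / (z.im : ℂ) ^ 2‖ ≤
        (C / H n ^ m) * |M| * (‖u n z‖ * ‖v n z‖) := by
      intro z hz
      rw [div_eq_mul_inv, norm_mul, norm_mul, norm_mul]
      have a1 : ‖G n z‖ ≤ C / H n ^ m := by rw [le_div_iff₀ hm]; exact h1 z hz
      have a2 : ‖((z.im : ℂ) ^ 2)⁻¹‖ ≤ |M| := (hM z hz).trans (le_abs_self M)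
      calc ‖G n z‖ * (‖u n z‖ * ‖v n z‖) * ‖((z.im : ℂ) ^ 2)⁻¹‖ =
            (‖G n z‖ * ‖((z.im : ℂ) ^ 2)⁻¹‖) * (‖u n z‖ * ‖v n z‖) := by ring
        _ ≤ ((C / H n ^ m) * |M|) * (‖u n z‖ * ‖v n z‖) := by
            refine mul_le_mul_of_nonneg_right ?_ (by positivity)
            exact mul_le_mul a1 a2 (norm_nonneg _) (by positivity)
    have cG : ContinuousOn (fun z => ‖G n z * (u n z * v n z) / (z.im : ℂ) ^ 2‖) S := by
      have c1 := ((hG 0).sp.sm n).continuousOn.mono hSH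
      have c3 := iy_cd.continuousOn.mono hSH
      have : ContinuousOn (fun z => G n z * (u n z * v n z) * ((z.im : ℂ) ^ 2)⁻¹) S :=
        (c1.mul (cu.mul cv)).mul c3
      simpa only [div_eq_mul_inv] using this.norm
    have cuv : ContinuousOn (fun z => ‖u n z‖ * ‖v n z‖) S := cu.norm.mul cv.norm
    have e3 : ‖∫ z in S, G n z * (u n z * v n z) / (z.im : ℂ) ^ 2‖ ≤
        (C / H n ^ m) * |M| * ∫ z in S, ‖u n z‖ * ‖v n z‖ := by
      refine (norm_integral_le_integral_norm _).trans ?_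
      rw [← integral_const_mul]
      exact intK_mono hS cG (continuousOn_const.mul cuv) e2
    have e4 : ∫ z in S, ‖u n z‖ * ‖v n z‖ ≤ 1 * (D + D') := by
      refine intK_lin hS zero_le_one cuv (cu.norm.pow 2) (cv.norm.pow 2) (fun z _ => ?_) h2 h3
      show ‖u n z‖ * ‖v n z‖ ≤ 1 * (‖u n z‖ ^ 2 + ‖v n z‖ ^ 2)
      nlinarith [sq_nonneg (‖u n z‖ - ‖v n z‖), sq_nonneg (‖u n z‖), sq_nonneg (‖v n z‖)]
    rw [pow_zero, one_mul, e1]
    have e5 : ‖∫ z in S, G n z * (u n z * v n z) / (z.im : ℂ) ^ 2‖ * H n ^ m ≤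
        ((C / H n ^ m) * |M| * ∫ z in S, ‖u n z‖ * ‖v n z‖) * H n ^ m :=
      mul_le_mul_of_nonneg_right e3 hm.le
    have e6 : ((C / H n ^ m) * |M| * ∫ z in S, ‖u n z‖ * ‖v n z‖) * H n ^ m =
        C * |M| * ∫ z in S, ‖u n z‖ * ‖v n z‖ := by
      field_simp
    rw [e6] at e5
    rw [one_mul] at e4
    exact e5.trans (mul_le_mul_of_nonneg_left e4 (by positivity))
  | succ k ih =>
    intro G u v hG h0 hu hv
    obtain ⟨u', hu', eu⟩ := hu.eq kp k1 kl hf hc he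
    obtain ⟨v', hv', ev⟩ := hv.eq kp k1 kl hf' hc' he'
    have sy : ContDiffOn ℝ ∞ (fun z : ℂ => (z.im : ℂ) ^ 2) HP := (im_cd.pow 2).contDiffOn
    have hD1 : ∀ j, SK HP H m j (DD H 1 G) := fun j =>
      (hG (j + 1)).2.1.smulc HPo Hp Hl sy
    have hDI : ∀ j, SK HP H m j (DD H I G) := fun j =>
      (hG (j + 1)).2.2.smulc HPo Hp Hl sy
    have zD : ∀ w n z, z ∉ S → DD H w G n z = 0 := by
      intro w n z hz
      simp only [DD, hd]
      rw [fd_zero hS (h0 n) w hz]; simp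
    obtain ⟨C1, h1⟩ := ih hG h0 hu' hv
    obtain ⟨C2, h2⟩ := ih hG h0 hu hv'
    obtain ⟨C3, h3⟩ := ih hD1 (zD 1) hu.hd1 hv
    obtain ⟨C4, h4⟩ := ih hD1 (zD 1) hu hv.hd1
    obtain ⟨C5, h5⟩ := ih hDI (zD I) hu.hdI hv
    obtain ⟨C6, h6⟩ := ih hDI (zD I) hu hv.hdI
    refine ⟨C1 + C2 + C3 + C4 + C5 + C6, ?_⟩
    filter_upwards [h1, h2, h3, h4, h5, h6, ev_h1 Hl] with n a1 a2 a3 a4 a5 a6 aH
    have id := J_id (H := H) hS hSH (kp n) ((hG 0).sp.sm n) (smu hu n) (smv hv n) (smu hu' n)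
      (smv hv' n) (h0 n) (eu n) (ev n)
    have nid := congrArg norm id
    rw [norm_mul, Complex.norm_real, Real.norm_eq_abs] at nid
    obtain ⟨Q, hQ⟩ : ∃ Q : ℝ, Q = |H n * (c n - c' n) / κ n| ^ k * H n ^ m := ⟨_, rfl⟩
    have Q0 : 0 ≤ Q := by
      rw [hQ]; exact mul_nonneg (pow_nonneg (abs_nonneg _) _) (pow_nonneg (Hp n).le _)
    rw [← hQ] at a1 a2 a3 a4 a5 a6
    have nH : ∀ x : ℂ, ‖(H n : ℂ) * x‖ ≤ ‖x‖ := by
      intro x
      rw [norm_mul, Complex.norm_real, Real.norm_eq_abs, abs_of_pos (Hp n)]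
      have := mul_le_mul_of_nonneg_right aH.le (norm_nonneg x)
      linarith
    have tri : ∀ x1 x2 x3 x4 x5 x6 : ℂ, ‖(x1 - x2) + (x3 - x4) + (x5 - x6)‖ ≤
        ‖x1‖ + ‖x2‖ + ‖x3‖ + ‖x4‖ + ‖x5‖ + ‖x6‖ := by
      intro x1 x2 x3 x4 x5 x6
      have b1 := norm_add_le ((x1 - x2) + (x3 - x4)) (x5 - x6)
      have b2 := norm_add_le (x1 - x2) (x3 - x4)
      have b3 := norm_sub_le x1 x2
      have b4 := norm_sub_le x3 x4
      have b5 := norm_sub_le x5 x6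
      linarith
    have bd : |H n * (c n - c' n) / κ n| * ‖JJ G u v n‖ ≤
        ‖JJ G u' v n‖ + ‖JJ G u v' n‖ + ‖JJ (DD H 1 G) (hd κ 1 u) v n‖ +
        ‖JJ (DD H 1 G) u (hd κ 1 v) n‖ + ‖JJ (DD H I G) (hd κ I u) v n‖ +
        ‖JJ (DD H I G) u (hd κ I v) n‖ := by
      rw [nid]
      refine (tri _ _ _ _ _ _).trans ?_
      have := nH (JJ G u' v n)
      have := nH (JJ G u v' n)
      linarith
    have fin := mul_le_mul_of_nonneg_right bd Q0
    calc ‖JJ G u v n‖ * (|H n * (c n - c' n) / κ n| ^ (k + 1) * H n ^ m) =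
          (|H n * (c n - c' n) / κ n| * ‖JJ G u v n‖) * Q := by rw [hQ, pow_succ]; ring
      _ ≤ C1 + C2 + C3 + C4 + C5 + C6 := by
          refine fin.trans ?_
          nlinarith

end

end Pool.Agent.TH421.DF
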