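import Pool.Agent.TH421.DF.Main

/-!
Project DF (helper421): two eigenfunctions of separated frequencies.
-/

set_option autoImplicit false
open MeasureTheory Filter Topology Complex
open scoped ContDiff ENNReal

namespace Pool.Agent.TH421.DF

open Pool.Agent.W745.RW Pool.Agent.TH294.RS Pool.Agent.TH294.RG

noncomputable section

variable {S : Set ℂ} {κ : ℕ → ℝ}

/-- the module generated by the semiclassical derivatives of `f` -/
inductive Md (κ : ℕ → ℝ) (f : ℕ → ℂ → ℂ) : (ℕ → ℂ → ℂ) → Prop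
  | base : Md κ f f
  | add {u w : ℕ → ℂ → ℂ} : Md κ f u → Md κ f w → Md κ f (fun n z => u n z + w n z)
  | smulc {u : ℕ → ℂ → ℂ} {c : ℂ → ℂ} : ContDiffOn ℝ ∞ c HP → Md κ f u →
      Md κ f (fun n z => c z * u n z)
  | bmul {u : ℕ → ℂ → ℂ} {c : ℕ → ℝ} {M : ℝ} : (∀ n, |c n| ≤ M) → Md κ f u →
      Md κ f (fun n z => (c n : ℂ) * u n z)
  | hd1 {u : ℕ → ℂ → ℂ} : Md κ f u → Md κ f (hd κ 1 u)
  | hdI {u : ℕ → ℂ → ℂ} : Md κ f u → Md κ f (hd κ I u)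

lemma Md.mk {f u : ℕ → ℂ → ℂ} (kl : Tendsto κ atTop (𝓝 0)) (hf : ∀ k, MK2 HP κ k f)
    (H : Md κ f u) : ∀ k, MK2 HP κ k u := by
  induction H with
  | base => exact hf
  | add _ _ h1 h2 => exact fun k => (h1 k).add HPo (h2 k)
  | smulc hc _ h1 => exact fun k => (h1 k).smulc HPo kl hc
  | bmul hc _ h1 => exact fun k => mk_bmul HPo (h1 k) (Eventually.of_forall hc)
  | hd1 _ h1 => exact fun k => (h1 (k + 1)).2.1
  | hdI _ h1 => exact fun k => (h1 (k + 1)).2.2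

lemma sdd {F : ℂ → ℂ} (hF : ContDiffOn ℝ ∞ F HP) (v : ℂ) :
    ContDiffOn ℝ ∞ (fun z => fderiv ℝ F z v) HP := Pool.Agent.W98.RW.cd_fderiv HPo hF v

lemma sll {F : ℂ → ℂ} (hF : ContDiffOn ℝ ∞ F HP) : ContDiffOn ℝ ∞ (lap F) HP :=
  (sdd (sdd hF 1) 1).add (sdd (sdd hF I) I)

lemma shL {u : ℕ → ℂ → ℂ} {n : ℕ} (hu : ContDiffOn ℝ ∞ (u n) HP) :
    ContDiffOn ℝ ∞ (hL κ u n) HP := contDiffOn_const.mul (sll hu)

lemma fd_mul {F G : ℂ → ℂ} {z : ℂ} (hF : DifferentiableAt ℝ F z) (hG : DifferentiableAt ℝ G z)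
    (v : ℂ) : fderiv ℝ (fun w => F w * G w) z v = F z * fderiv ℝ G z v + fderiv ℝ F z v * G z := by
  rw [fderiv_fun_mul hF hG]
  simp only [add_apply, smul_apply, smul_eq_mul]; ring

lemma fd_add {F G : ℂ → ℂ} {z : ℂ} (hF : DifferentiableAt ℝ F z) (hG : DifferentiableAt ℝ G z)
    (v : ℂ) : fderiv ℝ (fun w => F w + G w) z v = fderiv ℝ F z v + fderiv ℝ G z v := by
  rw [fderiv_fun_add hF hG]; simp only [add_apply]

lemma fd_sub {F G : ℂ → ℂ} {z : ℂ} (hF : DifferentiableAt ℝ F z) (hG : DifferentiableAt ℝ G z)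
    (v : ℂ) : fderiv ℝ (fun w => F w - G w) z v = fderiv ℝ F z v - fderiv ℝ G z v := by
  rw [fderiv_fun_sub hF hG]; simp only [sub_apply]

lemma fd_cm {F : ℂ → ℂ} {z : ℂ} (hF : DifferentiableAt ℝ F z) (c v : ℂ) :
    fderiv ℝ (fun w => c * F w) z v = c * fderiv ℝ F z v := by
  rw [fderiv_const_mul hF]; simp only [smul_apply, smul_eq_mul]

lemma fd_cg' {F G : ℂ → ℂ} (e : ∀ z ∈ HP, F z = G z) {z : ℂ} (hz : z ∈ HP) (v : ℂ) :
    fderiv ℝ F z v = fderiv ℝ G z v := by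
  have : F =ᶠ[𝓝 z] G := by
    filter_upwards [HPo.mem_nhds hz] with w hw
    exact e w hw
  rw [this.fderiv_eq]

lemma dA {F : ℂ → ℂ} (hF : ContDiffOn ℝ ∞ F HP) {z : ℂ} (hz : z ∈ HP) :
    DifferentiableAt ℝ F z := Pool.Agent.W98.RW.diffAt HPo hF hz

/-- second derivative of a product -/
lemma fd2_mul {F G : ℂ → ℂ} (hF : ContDiffOn ℝ ∞ F HP) (hG : ContDiffOn ℝ ∞ G HP) {z : ℂ}
    (hz : z ∈ HP) (v : ℂ) : fderiv ℝ (fun w => fderiv ℝ (fun w' => F w' * G w') w v) z v =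
      F z * fderiv ℝ (fun w => fderiv ℝ G w v) z v + 2 * (fderiv ℝ F z v * fderiv ℝ G z v) +
        fderiv ℝ (fun w => fderiv ℝ F w v) z v * G z := by
  have e : ∀ w ∈ HP, fderiv ℝ (fun w' => F w' * G w') w v =
      F w * fderiv ℝ G w v + fderiv ℝ F w v * G w := fun w hw => fd_mul (dA hF hw) (dA hG hw) v
  have d1 : DifferentiableAt ℝ (fun w => F w * fderiv ℝ G w v) z :=
    (dA hF hz).mul (dA (sdd hG v) hz)
  have d2 : DifferentiableAt ℝ (fun w => fderiv ℝ F w v * G w) z :=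
    (dA (sdd hF v) hz).mul (dA hG hz)
  rw [fd_cg' e hz v, fd_add d1 d2, fd_mul (dA hF hz) (dA (sdd hG v) hz),
    fd_mul (dA (sdd hF v) hz) (dA hG hz)]
  ring

lemma lap_mul' {F G : ℂ → ℂ} (hF : ContDiffOn ℝ ∞ F HP) (hG : ContDiffOn ℝ ∞ G HP) {z : ℂ}
    (hz : z ∈ HP) : lap (fun w => F w * G w) z = F z * lap G z +
      2 * (fderiv ℝ F z 1 * fderiv ℝ G z 1 + fderiv ℝ F z I * fderiv ℝ G z I) + lap F z * G z := by
  have e : ∀ K : ℂ → ℂ, lap K z = fderiv ℝ (fun w => fderiv ℝ K w 1) z 1 +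
    fderiv ℝ (fun w => fderiv ℝ K w I) z I := fun K => rfl
  rw [e, e, e, fd2_mul hF hG hz, fd2_mul hF hG hz]
  ring

lemma lap_add' {F G : ℂ → ℂ} (hF : ContDiffOn ℝ ∞ F HP) (hG : ContDiffOn ℝ ∞ G HP) {z : ℂ}
    (hz : z ∈ HP) : lap (fun w => F w + G w) z = lap F z + lap G z := by
  have e : ∀ K : ℂ → ℂ, lap K z = fderiv ℝ (fun w => fderiv ℝ K w 1) z 1 +
    fderiv ℝ (fun w => fderiv ℝ K w I) z I := fun K => rfl
  have e1 : ∀ v, ∀ w ∈ HP, fderiv ℝ (fun w' => F w' + G w') w v =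
      fderiv ℝ F w v + fderiv ℝ G w v := fun v w hw => fd_add (dA hF hw) (dA hG hw) v
  rw [e, e, e, fd_cg' (e1 1) hz, fd_cg' (e1 I) hz, fd_add (dA (sdd hF 1) hz) (dA (sdd hG 1) hz),
    fd_add (dA (sdd hF I) hz) (dA (sdd hG I) hz)]
  ring

/-- the derivative of the square of the imaginary part -/
def ry (v z : ℂ) : ℂ := fderiv ℝ (fun w : ℂ => (w.im : ℂ) ^ 2) z v

lemma ry_cd (v : ℂ) : ContDiffOn ℝ ∞ (ry v) HP := sdd (im_cd.pow 2).contDiffOn v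

/-- commutation with a derivative -/
lemma eq_hd {u u' : ℕ → ℂ → ℂ} {c : ℕ → ℝ} (hu : ∀ n, ContDiffOn ℝ ∞ (u n) HP)
    (hu' : ∀ n, ContDiffOn ℝ ∞ (u' n) HP)
    (he : ∀ n, ∀ z ∈ HP, (z.im : ℂ) ^ 2 * hL κ u n z + (c n : ℂ) * u n z = (κ n : ℂ) * u' n z)
    (v : ℂ) (n : ℕ) {z : ℂ} (hz : z ∈ HP) :
    (z.im : ℂ) ^ 2 * hL κ (hd κ v u) n z + (c n : ℂ) * hd κ v u n z =
      (κ n : ℂ) * (hd κ v u' n z + (-(ry v z * ((z.im : ℂ) ^ 2)⁻¹)) *
        ((κ n : ℂ) * u' n z + ((-c n : ℝ) : ℂ) * u n z)) := by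
  have h0 : (z.im : ℂ) ≠ 0 := by exact_mod_cast (ne_of_gt (hz : 0 < z.im))
  have e1 : ∀ w ∈ HP, (w.im : ℂ) ^ 2 * hL κ u n w =
      (κ n : ℂ) * u' n w + (-(c n : ℂ)) * u n w := by
    intro w hw
    have := he n w hw
    linear_combination this
  have e2 := fd_cg' e1 hz v
  rw [fd_mul (dA (im_cd.pow 2).contDiffOn hz) (dA (shL (hu n)) hz),
    fd_add ((dA (hu' n) hz).const_mul _) ((dA (hu n) hz).const_mul _),
    fd_cm (dA (hu' n) hz), fd_cm (dA (hu n) hz)] at e2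
  have e3 := hL_hd (h := κ) HPo hu v n z hz
  have e4 := he n z hz
  rw [e3]
  have e5 : hL κ u n z = ((z.im : ℂ) ^ 2)⁻¹ * ((κ n : ℂ) * u' n z + (-(c n : ℂ)) * u n z) := by
    rw [← e1 z hz]
    rw [← mul_assoc, inv_mul_cancel₀ (pow_ne_zero 2 h0), one_mul]
  have e6 : fderiv ℝ (fun w : ℂ => (w.im : ℂ) ^ 2) z v = ry v z := rfl
  rw [e6, e5] at e2
  simp only [hd]
  push_cast
  linear_combination (κ n : ℂ) * e2

lemma Md.zero {f : ℕ → ℂ → ℂ} : Md κ f (fun n z => (0 : ℂ) * f n z) :=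
  Md.smulc (c := fun _ => (0 : ℂ)) contDiffOn_const Md.base

/-- elements of the module satisfy the equation up to `κ` -/
theorem Md.eq {f u : ℕ → ℂ → ℂ} {c : ℕ → ℝ} (kp : ∀ n, 0 < κ n) (k1 : ∀ n, κ n ≤ 1)
    (kl : Tendsto κ atTop (𝓝 0)) (hf : ∀ k, MK2 HP κ k f) (hc : ∀ n, |c n| ≤ 1)
    (he : ∀ n, ∀ z ∈ HP, (z.im : ℂ) ^ 2 * hL κ f n z = -((c n : ℂ) * f n z))
    (H : Md κ f u) : ∃ u' : ℕ → ℂ → ℂ, Md κ f u' ∧ ∀ n, ∀ z ∈ HP,
      (z.im : ℂ) ^ 2 * hL κ u n z + (c n : ℂ) * u n z = (κ n : ℂ) * u' n z := by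
  have kb : ∀ n, |κ n| ≤ 1 := fun n => by rw [abs_of_pos (kp n)]; exact k1 n
  have sm : ∀ {w : ℕ → ℂ → ℂ}, Md κ f w → ∀ n, ContDiffOn ℝ ∞ (w n) HP := fun hw n =>
    (hw.mk kl hf 0).lb.sm n
  induction H with
  | base =>
    refine ⟨_, Md.zero, fun n z hz => ?_⟩
    rw [he n z hz]; ring
  | @add u w hu hw h1 h2 =>
    obtain ⟨u', a1, b1⟩ := h1
    obtain ⟨w', a2, b2⟩ := h2
    refine ⟨_, a1.add a2, fun n z hz => ?_⟩
    have e : hL κ (fun n z => u n z + w n z) n z = hL κ u n z + hL κ w n z := by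
      simp only [hL]
      rw [lap_add' (sm hu n) (sm hw n) hz]; ring
    rw [e]
    linear_combination b1 n z hz + b2 n z hz
  | @smulc u b hb hu h1 =>
    obtain ⟨u', a1, b1⟩ := h1
    have sy : ContDiffOn ℝ ∞ (fun z : ℂ => (z.im : ℂ) ^ 2) HP := (im_cd.pow 2).contDiffOn
    have m1 : Md κ f (fun n z => b z * u' n z) := a1.smulc hb
    have m2 : Md κ f (fun n z => (2 * (z.im : ℂ) ^ 2 * fderiv ℝ b z 1) * hd κ 1 u n z) :=
      (hu.hd1).smulc ((contDiffOn_const.mul sy).mul (sdd hb 1))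
    have m3 : Md κ f (fun n z => (2 * (z.im : ℂ) ^ 2 * fderiv ℝ b z I) * hd κ I u n z) :=
      (hu.hdI).smulc ((contDiffOn_const.mul sy).mul (sdd hb I))
    have m4 : Md κ f (fun n z => (κ n : ℂ) * (((z.im : ℂ) ^ 2 * lap b z) * u n z)) :=
      (hu.smulc (sy.mul (sll hb))).bmul kb
    refine ⟨_, ((m1.add m2).add m3).add m4, fun n z hz => ?_⟩
    have e : hL κ (fun n z => b z * u n z) n z = b z * hL κ u n z +
        (κ n : ℂ) * (2 * (fderiv ℝ b z 1 * hd κ 1 u n z + fderiv ℝ b z I * hd κ I u n z)) +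
        (κ n : ℂ) ^ 2 * (lap b z * u n z) := by
      simp only [hL, hd]
      rw [lap_mul' hb (sm hu n) hz]; ring
    rw [e]
    linear_combination (b z) * b1 n z hz
  | @bmul u b M hb hu h1 =>
    obtain ⟨u', a1, b1⟩ := h1
    refine ⟨_, a1.bmul hb, fun n z hz => ?_⟩
    have e : hL κ (fun n z => (b n : ℂ) * u n z) n z = (b n : ℂ) * hL κ u n z := by
      have h2 := lap_mul' (F := fun _ => (b n : ℂ)) contDiffOn_const (sm hu n) hz
      simp only [hL]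
      rw [h2]
      have z1 : ∀ v : ℂ, fderiv ℝ (fun _ : ℂ => (b n : ℂ)) z v = 0 := by intro v; simp
      have z2 : lap (fun _ : ℂ => (b n : ℂ)) z = 0 := by
        have e : lap (fun _ : ℂ => (b n : ℂ)) z =
          fderiv ℝ (fun w => fderiv ℝ (fun _ : ℂ => (b n : ℂ)) w 1) z 1 +
          fderiv ℝ (fun w => fderiv ℝ (fun _ : ℂ => (b n : ℂ)) w I) z I := rfl
        rw [e]; simp
      rw [z1, z1, z2]; ring
    rw [e]
    linear_combination (b n : ℂ) * b1 n z hz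
  | @hd1 u hu h1 =>
    obtain ⟨u', a1, b1⟩ := h1
    have hcn : ∀ n, |-c n| ≤ 1 := fun n => by rw [abs_neg]; exact hc n
    have m1 := ((a1.bmul kb).add (hu.bmul hcn)).smulc (((ry_cd 1).mul iy_cd).neg)
    exact ⟨_, a1.hd1.add m1, fun n z hz => eq_hd (sm hu) (sm a1) b1 1 n hz⟩
  | @hdI u hu h1 =>
    obtain ⟨u', a1, b1⟩ := h1
    have hcn : ∀ n, |-c n| ≤ 1 := fun n => by rw [abs_neg]; exact hc n
    have m1 := ((a1.bmul kb).add (hu.bmul hcn)).smulc (((ry_cd I).mul iy_cd).neg)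
    exact ⟨_, a1.hdI.add m1, fun n z hz => eq_hd (sm hu) (sm a1) b1 I n hz⟩

end

end Pool.Agent.TH421.DF
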